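import Pool.Agent.N627.ND.Stm

/-!
# Project ND: fine types are determined by the fine types of distant pieces
-/

set_option autoImplicit false
set_option maxHeartbeats 400000

namespace Pool.Agent.N721.ND

open Pool.Agent.N627.ND

variable {V : Type}

/-- the piece of `i` -/
def Pc {n : ℕ} (z : Fin n → V) (π : Fin n → ℕ) (i : Fin n) : Fin n → V :=
  fun k => if π k = π i then z k else z i

theorem Pc_self {n : ℕ} (z : Fin n → V) (π : Fin n → ℕ) (i : Fin n) : Pc z π i i = z i := by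
  simp [Pc]

theorem Pc_pos {n : ℕ} (z : Fin n → V) (π : Fin n → ℕ) (i k : Fin n) (h : π k = π i) :
    Pc z π i k = z k := by
  simp [Pc, h]

theorem tri {G : SimpleGraph V} {a b c : V} {p q r : ℕ} (h1 : G.edist a c ≤ (p : ℕ∞))
    (h2 : G.edist c b ≤ (q : ℕ∞)) (h3 : p + q ≤ r) : G.edist a b ≤ (r : ℕ∞) := by
  calc G.edist a b ≤ G.edist a c + G.edist c b := SimpleGraph.edist_triangle
    _ ≤ (p : ℕ∞) + (q : ℕ∞) := add_le_add h1 h2
    _ = ((p + q : ℕ) : ℕ∞) := by push_cast; rfl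
    _ ≤ (r : ℕ∞) := by exact_mod_cast h3

section

variable [Nonempty V] {K : Type} (G : SimpleGraph V) (κ : V → K) (Q : ℕ)

theorem T_zero_iff {n : ℕ} (z z' : Fin n → V) : T G κ Q 0 n z = T G κ Q 0 n z' ↔
    ((fun i => κ (z i)) = fun i => κ (z' i)) ∧
    ((fun i k => z i = z k : Fin n → Fin n → Prop) = fun i k => z' i = z' k) ∧
    ((fun i k => G.Adj (z i) (z k) : Fin n → Fin n → Prop) = fun i k => G.Adj (z' i) (z' k)) := by
  show (((fun i => κ (z i)), (fun i k => z i = z k), (fun i k => G.Adj (z i) (z k))) :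
    (Fin n → K) × (Fin n → Fin n → Prop) × (Fin n → Fin n → Prop)) =
    ((fun i => κ (z' i)), (fun i k => z' i = z' k), (fun i k => G.Adj (z' i) (z' k))) ↔ _
  rw [Prod.mk.injEq, Prod.mk.injEq]

/-- the second component -/
noncomputable def C2 {n : ℕ} (j : ℕ) (z : Fin n → V) :
    Fin n → TT K Q j 1 → Fin (Q + 1) → Fin (3 * 6 ^ (j + 1) + 1) → Prop :=
  fun i θ q e => ¬ Wide G (6 ^ (j + 1)) Q {x | T G κ Q j 1 (fun _ => x) = θ} ∧
        G.edist (z i) (cen G (6 ^ (j + 1)) Q {x | T G κ Q j 1 (fun _ => x) = θ} q) ≤ (e : ℕ)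

/-- the third component -/
noncomputable def C3 {n : ℕ} (j : ℕ) (z : Fin n → V) :
    Set ((Fin n → Fin (6 ^ (j + 1) + 1) → Prop) × Fin (Q + 1) × TT K Q j (n + 1)) :=
  {p | ∃ b, p = (dpat G (6 ^ (j + 1)) z b, ow G κ Q j b, T G κ Q j (n + 1) (ap z b))}

theorem T_succ_iff {j n : ℕ} (z z' : Fin n → V) :
    T G κ Q (j + 1) n z = T G κ Q (j + 1) n z' ↔
    T G κ Q j n z = T G κ Q j n z' ∧ C2 G κ Q j z = C2 G κ Q j z' ∧
      C3 G κ Q j z = C3 G κ Q j z' := by
  show ((T G κ Q j n z, C2 G κ Q j z, C3 G κ Q j z) : TT K Q j n ×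
    (Fin n → TT K Q j 1 → Fin (Q + 1) → Fin (3 * 6 ^ (j + 1) + 1) → Prop) ×
    Set ((Fin n → Fin (6 ^ (j + 1) + 1) → Prop) × Fin (Q + 1) × TT K Q j (n + 1))) =
    (T G κ Q j n z', C2 G κ Q j z', C3 G κ Q j z') ↔ _
  rw [Prod.mk.injEq, Prod.mk.injEq]

/-- the statement for rank `j` and length `n` -/
def CO (j n : ℕ) : Prop := ∀ (z z' : Fin n → V) (π : Fin n → ℕ),
  (∀ i k, π i ≠ π k → ((6 * 6 ^ j : ℕ) : ℕ∞) < G.edist (z i) (z k) ∧
    ((6 * 6 ^ j : ℕ) : ℕ∞) < G.edist (z' i) (z' k)) →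
  (∀ i, T G κ Q j n (Pc z π i) = T G κ Q j n (Pc z' π i)) →
  T G κ Q j n z = T G κ Q j n z'

theorem co_zero (n : ℕ) : CO G κ Q 0 n := by
  intro z z' π hfar hT
  have key : ∀ i, κ (z i) = κ (z' i) ∧ ∀ k, π k = π i →
      (z i = z k) = (z' i = z' k) ∧ (G.Adj (z i) (z k)) = (G.Adj (z' i) (z' k)) := by
    intro i
    obtain ⟨h1, h2, h3⟩ := (T_zero_iff G κ Q _ _).mp (hT i)
    refine ⟨?_, fun k hk => ⟨?_, ?_⟩⟩
    · have := congrFun h1 i
      simpa only [Pc_self] using this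
    · have := congrFun (congrFun h2 i) k
      simpa only [Pc_self, Pc_pos _ _ _ _ hk] using this
    · have := congrFun (congrFun h3 i) k
      simpa only [Pc_self, Pc_pos _ _ _ _ hk] using this
  have hne : ∀ x y : V, ((6 * 6 ^ 0 : ℕ) : ℕ∞) < G.edist x y → x ≠ y ∧ ¬ G.Adj x y := by
    intro x y hxy
    constructor
    · rintro rfl
      simp at hxy
    · intro h
      rw [SimpleGraph.edist_eq_one_iff_adj.mpr h] at hxy
      exact absurd hxy (by simp)
  refine (T_zero_iff G κ Q _ _).mpr ⟨?_, ?_, ?_⟩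
  · funext i
    exact (key i).1
  · funext i k
    by_cases h : π k = π i
    · exact ((key i).2 k h).1
    · have h1 := hfar i k (fun e => h e.symm)
      exact propext ⟨fun e => absurd e (hne _ _ h1.1).1, fun e => absurd e (hne _ _ h1.2).1⟩
  · funext i k
    by_cases h : π k = π i
    · exact ((key i).2 k h).2
    · have h1 := hfar i k (fun e => h e.symm)
      exact propext ⟨fun e => absurd e (hne _ _ h1.1).2, fun e => absurd e (hne _ _ h1.2).2⟩

variable {G κ Q}

/-- the new entry in the tuple `ap z b` -/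
theorem pieces (hRI : S_RI) {j n : ℕ} (IH : CO G κ Q j (n + 1)) (z z' : Fin n → V) (b b' : V)
    (π : Fin n → ℕ) (p : ℕ)
    (hfar : ∀ i k, π i ≠ π k → ((6 * 6 ^ j : ℕ) : ℕ∞) < G.edist (z i) (z k) ∧
      ((6 * 6 ^ j : ℕ) : ℕ∞) < G.edist (z' i) (z' k))
    (hb : ∀ l, π l ≠ p → ((6 * 6 ^ j : ℕ) : ℕ∞) < G.edist (z l) b ∧
      ((6 * 6 ^ j : ℕ) : ℕ∞) < G.edist (z' l) b')
    (H1 : ∀ i, π i ≠ p → T G κ Q j n (Pc z π i) = T G κ Q j n (Pc z' π i))
    (hp : (∃ k, π k = p ∧ T G κ Q j (n + 1) (ap (Pc z π k) b) =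
        T G κ Q j (n + 1) (ap (Pc z' π k) b')) ∨
      ((∀ l, π l ≠ p) ∧ T G κ Q j 1 (fun _ => b) = T G κ Q j 1 (fun _ => b'))) :
    T G κ Q j (n + 1) (ap z b) = T G κ Q j (n + 1) (ap z' b') := by
  have ap_c : ∀ (x : Fin n → V) (y : V) (l : Fin n), ap x y l.castSucc = x l := by
    intro x y l
    simp [ap]
  have ap_l : ∀ (x : Fin n → V) (y : V), ap x y (Fin.last n) = y := by
    intro x y
    simp [ap]
  set π' : Fin (n + 1) → ℕ := Fin.snoc (α := fun _ => ℕ) π p with hπ'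
  have pc : ∀ l : Fin n, π' l.castSucc = π l := by
    intro l
    simp [hπ']
  have pl : π' (Fin.last n) = p := by
    simp [hπ']
  refine IH (ap z b) (ap z' b') π' ?_ ?_
  · intro i k
    refine Fin.lastCases ?_ (fun i => ?_) i <;> refine Fin.lastCases ?_ (fun k => ?_) k
    · intro h
      exact absurd rfl h
    · rw [pl, pc, ap_l, ap_l, ap_c, ap_c, SimpleGraph.edist_comm, SimpleGraph.edist_comm (u := b')]
      intro h
      exact hb k (Ne.symm h)
    · rw [pl, pc, ap_l, ap_l, ap_c, ap_c]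
      intro h
      exact hb i h
    · rw [pc, pc, ap_c, ap_c, ap_c, ap_c]
      exact hfar i k
  · intro i
    refine Fin.lastCases ?_ (fun i => ?_) i
    · -- the piece of the new entry
      rcases hp with ⟨k, hk, hT⟩ | ⟨hl, hT⟩
      · have key : ∀ (x : Fin n → V) (y : V), Pc (ap x y) π' (Fin.last n) =
            fun l => ap (Pc x π k) y (Fin.lastCases (motive := fun _ => Fin (n + 1)) (Fin.last n)
              (fun l => if π l = p then l.castSucc else Fin.last n) l) := by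
          intro x y
          funext l
          refine Fin.lastCases ?_ (fun l => ?_) l
          · rw [Pc_self, Fin.lastCases_last, ap_l, ap_l]
          · rw [Fin.lastCases_castSucc]
            unfold Pc
            rw [pc, pl, ap_c, ap_l]
            by_cases h : π l = p
            · rw [if_pos h, if_pos h, ap_c, if_pos (h.trans hk.symm)]
            · rw [if_neg h, if_neg h, ap_l]
        rw [key, key]
        exact (hRI V K G κ Q j (n + 1) (n + 1) _ _ _).2 hT
      · have key : ∀ (x : Fin n → V) (y : V), Pc (ap x y) π' (Fin.last n) =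
            fun l => (fun _ : Fin 1 => y) ((fun _ => 0) l) := by
          intro x y
          funext l
          refine Fin.lastCases ?_ (fun l => ?_) l
          · rw [Pc_self, ap_l]
          · unfold Pc
            rw [pc, pl, ap_l, if_neg (hl l)]
        rw [key, key]
        exact (hRI V K G κ Q j 1 (n + 1) (fun _ => b) (fun _ => b') (fun _ => 0)).2 hT
    · by_cases hi : π i = p
      · rcases hp with ⟨k, hk, hT⟩ | ⟨hl, hT⟩
        · have key : ∀ (x : Fin n → V) (y : V), Pc (ap x y) π' i.castSucc =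
              fun l => ap (Pc x π k) y (Fin.lastCases (motive := fun _ => Fin (n + 1)) (Fin.last n)
                (fun l => if π l = p then l.castSucc else i.castSucc) l) := by
            intro x y
            funext l
            refine Fin.lastCases ?_ (fun l => ?_) l
            · rw [Fin.lastCases_last, ap_l]
              unfold Pc
              rw [pl, pc, if_pos hi.symm, ap_l]
            · rw [Fin.lastCases_castSucc]
              unfold Pc
              rw [pc, pc, ap_c, ap_c, hi]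
              by_cases h : π l = p
              · rw [if_pos h, if_pos h, ap_c, if_pos (h.trans hk.symm)]
              · rw [if_neg h, if_neg h, ap_c, if_pos (hi.trans hk.symm)]
          rw [key, key]
          exact (hRI V K G κ Q j (n + 1) (n + 1) _ _ _).2 hT
        · exact absurd hi (hl i)
      · have key : ∀ (x : Fin n → V) (y : V), Pc (ap x y) π' i.castSucc =
            fun l => Pc x π i (Fin.lastCases (motive := fun _ => Fin n) i (fun l => l) l) := by
          intro x y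
          funext l
          refine Fin.lastCases ?_ (fun l => ?_) l
          · rw [Fin.lastCases_last, Pc_self]
            unfold Pc
            rw [pl, pc, if_neg (fun h => hi h.symm), ap_c]
          · rw [Fin.lastCases_castSucc]
            unfold Pc
            rw [pc, pc, ap_c, ap_c]
        rw [key, key]
        exact (hRI V K G κ Q j n (n + 1) _ _ _).2 (H1 i hi)

/-- the centre of the number `own` -/
theorem own_spec {ρ : ℕ} {S : Set V} (hW : ¬ Wide G ρ Q S) {b : V} (hb : b ∈ S) :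
    G.edist b (cen G ρ Q S (own G ρ Q S b)) ≤ ((2 * ρ : ℕ) : ℕ∞) := by
  unfold own
  rw [dif_pos ⟨hW, hb⟩]
  exact ((exists_cen G ρ Q S).choose_spec hW b hb).choose_spec

theorem own_wide {ρ : ℕ} {S : Set V} (hW : Wide G ρ Q S) (b : V) : own G ρ Q S b = 0 := by
  unfold own
  rw [dif_neg (fun h => h.1 hW)]

theorem step (hRI : S_RI) {j n : ℕ} (hn : n ≤ Q) (IH : CO G κ Q j (n + 1)) (z z' : Fin n → V)
    (π : Fin n → ℕ)
    (hfar : ∀ i k, π i ≠ π k → ((6 * 6 ^ (j + 1) : ℕ) : ℕ∞) < G.edist (z i) (z k) ∧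
      ((6 * 6 ^ (j + 1) : ℕ) : ℕ∞) < G.edist (z' i) (z' k))
    (hT : ∀ i, T G κ Q (j + 1) n (Pc z π i) = T G κ Q (j + 1) n (Pc z' π i)) (b : V) :
    ∃ b', dpat G (6 ^ (j + 1)) z b = dpat G (6 ^ (j + 1)) z' b' ∧
      ow G κ Q j b = ow G κ Q j b' ∧
      T G κ Q j (n + 1) (ap z b) = T G κ Q j (n + 1) (ap z' b') := by
  have h66 : 6 * 6 ^ j = 6 ^ (j + 1) := (pow_succ' 6 j).symm
  set ρ : ℕ := 6 ^ (j + 1) with hρ
  have hfar' : ∀ i k, π i ≠ π k → ((6 * 6 ^ j : ℕ) : ℕ∞) < G.edist (z i) (z k) ∧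
      ((6 * 6 ^ j : ℕ) : ℕ∞) < G.edist (z' i) (z' k) := by
    intro i k h
    have h1 := hfar i k h
    have h2 : ((6 * 6 ^ j : ℕ) : ℕ∞) ≤ ((6 * ρ : ℕ) : ℕ∞) := by
      rw [h66]
      exact_mod_cast (by omega : ρ ≤ 6 * ρ)
    exact ⟨lt_of_le_of_lt h2 h1.1, lt_of_le_of_lt h2 h1.2⟩
  -- the three components of the hypotheses
  have H1 : ∀ i, T G κ Q j n (Pc z π i) = T G κ Q j n (Pc z' π i) := by
    intro i
    exact ((T_succ_iff G κ Q _ _).mp (hT i)).1
  have H2 : ∀ k θ q (e : Fin (3 * ρ + 1)),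
      ¬ Wide G ρ Q {x | T G κ Q j 1 (fun _ => x) = θ} →
      (G.edist (z k) (cen G ρ Q {x | T G κ Q j 1 (fun _ => x) = θ} q) ≤ (e : ℕ) ↔
        G.edist (z' k) (cen G ρ Q {x | T G κ Q j 1 (fun _ => x) = θ} q) ≤ (e : ℕ)) := by
    intro k θ q e hW
    have h := (T_succ_iff G κ Q _ _).mp (hT k)
    have h2 := congrFun (congrFun (congrFun (congrFun h.2.1 k) θ) q) e
    unfold C2 at h2
    rw [Pc_self, Pc_self] at h2
    have h3 := iff_of_eq h2
    exact ⟨fun h4 => (h3.mp ⟨hW, h4⟩).2, fun h4 => (h3.mpr ⟨hW, h4⟩).2⟩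
  have H3 : ∀ k, ∃ b', dpat G ρ (Pc z π k) b = dpat G ρ (Pc z' π k) b' ∧
      ow G κ Q j b = ow G κ Q j b' ∧
      T G κ Q j (n + 1) (ap (Pc z π k) b) = T G κ Q j (n + 1) (ap (Pc z' π k) b') := by
    intro k
    have h3 := ((T_succ_iff G κ Q _ _).mp (hT k)).2.2
    have h4 := (Set.ext_iff.mp h3 (dpat G (6 ^ (j + 1)) (Pc z π k) b, ow G κ Q j b,
        T G κ Q j (n + 1) (ap (Pc z π k) b))).mp ⟨b, rfl⟩
    obtain ⟨b', hb'⟩ := h4
    simp only [Prod.mk.injEq] at hb'
    exact ⟨b', hb'.1, hb'.2.1, hb'.2.2⟩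
  have hone : ∀ k b', T G κ Q j (n + 1) (ap (Pc z π k) b) = T G κ Q j (n + 1) (ap (Pc z' π k) b') →
      T G κ Q j 1 (fun _ => b) = T G κ Q j 1 (fun _ => b') := by
    intro k b' h
    have h1 := (hRI V K G κ Q j (n + 1) 1 _ _ (fun _ => Fin.last n)).2 h
    simpa [ap] using h1
  -- equal distance patterns
  have hdp : ∀ k b', dpat G ρ (Pc z π k) b = dpat G ρ (Pc z' π k) b' →
      (∀ l, π l ≠ π k → (ρ : ℕ∞) < G.edist (z l) b ∧ (ρ : ℕ∞) < G.edist (z' l) b') →
      dpat G ρ z b = dpat G ρ z' b' := by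
    intro k b' h h2
    funext l e
    by_cases hl : π l = π k
    · have := congrFun (congrFun h l) e
      unfold dpat at this
      rw [Pc_pos _ _ _ _ hl, Pc_pos _ _ _ _ hl] at this
      exact this
    · have he : ((e : ℕ) : ℕ∞) ≤ (ρ : ℕ∞) := by
        exact_mod_cast (by have := e.2; omega : (e : ℕ) ≤ ρ)
      exact propext ⟨fun h3 => absurd (h3.trans he) (not_le.mpr (h2 l hl).1),
        fun h3 => absurd (h3.trans he) (not_le.mpr (h2 l hl).2)⟩
  have hdp0 : ∀ b', (∀ l, (ρ : ℕ∞) < G.edist (z l) b ∧ (ρ : ℕ∞) < G.edist (z' l) b') →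
      dpat G ρ z b = dpat G ρ z' b' := by
    intro b' h2
    funext l e
    have he : ((e : ℕ) : ℕ∞) ≤ (ρ : ℕ∞) := by
      exact_mod_cast (by have := e.2; omega : (e : ℕ) ≤ ρ)
    exact propext ⟨fun h3 => absurd (h3.trans he) (not_le.mpr (h2 l).1),
      fun h3 => absurd (h3.trans he) (not_le.mpr (h2 l).2)⟩
  -- a piece is extended
  have hext : ∀ k b', dpat G ρ (Pc z π k) b = dpat G ρ (Pc z' π k) b' →
      ow G κ Q j b = ow G κ Q j b' →
      T G κ Q j (n + 1) (ap (Pc z π k) b) = T G κ Q j (n + 1) (ap (Pc z' π k) b') →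
      (∀ l, π l ≠ π k → (ρ : ℕ∞) < G.edist (z l) b ∧ (ρ : ℕ∞) < G.edist (z' l) b') →
      ∃ b', dpat G ρ z b = dpat G ρ z' b' ∧ ow G κ Q j b = ow G κ Q j b' ∧
        T G κ Q j (n + 1) (ap z b) = T G κ Q j (n + 1) (ap z' b') := by
    intro k b' h1 h2 h3 h4
    refine ⟨b', hdp k b' h1 h4, h2, pieces hRI IH z z' b b' π (π k) hfar' ?_ (fun i _ => H1 i)
      (Or.inl ⟨k, rfl, h3⟩)⟩
    rw [h66]
    exact h4
  -- a new piece
  have hnew : ∀ b', T G κ Q j 1 (fun _ => b) = T G κ Q j 1 (fun _ => b') →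
      ow G κ Q j b = ow G κ Q j b' →
      (∀ l, (ρ : ℕ∞) < G.edist (z l) b ∧ (ρ : ℕ∞) < G.edist (z' l) b') →
      ∃ b', dpat G ρ z b = dpat G ρ z' b' ∧ ow G κ Q j b = ow G κ Q j b' ∧
        T G κ Q j (n + 1) (ap z b) = T G κ Q j (n + 1) (ap z' b') := by
    intro b' h1 h2 h3
    have hp : ∀ l, π l ≠ (∑ i, π i) + 1 := by
      intro l h
      have := Finset.single_le_sum (f := π) (fun i _ => Nat.zero_le _) (Finset.mem_univ l)
      omega
    refine ⟨b', hdp0 b' h3, h2, pieces hRI IH z z' b b' π _ hfar' ?_ (fun i _ => H1 i)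
      (Or.inr ⟨hp, h1⟩)⟩
    rw [h66]
    exact fun l _ => h3 l
  by_cases hc : ∃ k, G.edist (z k) b ≤ (ρ : ℕ∞)
  · obtain ⟨k, hk⟩ := hc
    obtain ⟨b', h1, h2, h3⟩ := H3 k
    have hk' : G.edist (z' k) b' ≤ (ρ : ℕ∞) := by
      have h4 := congrFun (congrFun h1 k) ⟨ρ, by omega⟩
      unfold dpat at h4
      rw [Pc_self, Pc_self] at h4
      exact (iff_of_eq h4).mp hk
    refine hext k b' h1 h2 h3 (fun l hl => ⟨?_, ?_⟩)
    · by_contra hcon
      have h5 := (hfar l k hl).1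
      exact absurd (tri (r := 6 * ρ) (not_lt.mp hcon)
        ((SimpleGraph.edist_comm).trans_le hk) (by omega)) (not_le.mpr h5)
    · by_contra hcon
      have h5 := (hfar l k hl).2
      exact absurd (tri (r := 6 * ρ) (not_lt.mp hcon)
        ((SimpleGraph.edist_comm).trans_le hk') (by omega)) (not_le.mpr h5)
  · have hc' : ∀ k, (ρ : ℕ∞) < G.edist (z k) b := fun k => not_le.mp (fun h => hc ⟨k, h⟩)
    by_cases hW : Wide G ρ Q {x | T G κ Q j 1 (fun _ => x) = T G κ Q j 1 (fun _ => b)}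
    · obtain ⟨x, hx1, hx2⟩ := id hW
      have hex : ∃ i, ∀ k, (ρ : ℕ∞) < G.edist (z' k) (x i) := by
        by_contra hcon
        push Not at hcon
        choose f hf using hcon
        obtain ⟨i, i', hne, he⟩ := Fintype.exists_ne_map_eq_of_card_lt f (by simp; omega)
        have h1 := hf i
        have h2 := hf i'
        rw [← he] at h2
        exact absurd (tri (r := 2 * ρ) ((SimpleGraph.edist_comm).trans_le h1) h2 (by omega))
          (not_le.mpr (hx2 i i' hne))
      obtain ⟨i, hi⟩ := hex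
      have hxi : T G κ Q j 1 (fun _ => x i) = T G κ Q j 1 (fun _ => b) := hx1 i
      refine hnew (x i) hxi.symm ?_ (fun l => ⟨hc' l, hi l⟩)
      unfold ow
      rw [hxi, own_wide hW, own_wide hW]
    · have hbS : b ∈ {x | T G κ Q j 1 (fun _ => x) = T G κ Q j 1 (fun _ => b)} := rfl
      have hbc := own_spec hW hbS
      by_cases hd : ∃ k, G.edist (z k) (cen G ρ Q
          {x | T G κ Q j 1 (fun _ => x) = T G κ Q j 1 (fun _ => b)} (ow G κ Q j b)) ≤
          ((3 * ρ : ℕ) : ℕ∞)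
      · obtain ⟨k, hk⟩ := hd
        obtain ⟨b', h1, h2, h3⟩ := H3 k
        have h4 := hone k b' h3
        have hb'c : G.edist b' (cen G ρ Q
            {x | T G κ Q j 1 (fun _ => x) = T G κ Q j 1 (fun _ => b)} (ow G κ Q j b)) ≤
            ((2 * ρ : ℕ) : ℕ∞) := by
          have h5 : ow G κ Q j b' = own G ρ Q
              {x | T G κ Q j 1 (fun _ => x) = T G κ Q j 1 (fun _ => b)} b' := by
            unfold ow
            rw [h4]
          rw [h2, h5]
          exact own_spec hW h4.symm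
        have hk' := (H2 k (T G κ Q j 1 (fun _ => b)) (ow G κ Q j b) ⟨3 * ρ, by omega⟩ hW).mp hk
        refine hext k b' h1 h2 h3 (fun l hl => ⟨hc' l, ?_⟩)
        by_contra hcon
        have h5 := (hfar l k hl).2
        have h6 := tri (r := 3 * ρ) (not_lt.mp hcon) hb'c (by omega)
        exact absurd (tri (r := 6 * ρ) h6
          ((SimpleGraph.edist_comm).trans_le hk') (by simp only []; omega)) (not_le.mpr h5)
      · refine hnew b rfl rfl (fun l => ⟨hc' l, ?_⟩)
        by_contra hcon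
        apply hd
        refine ⟨l, (H2 l (T G κ Q j 1 (fun _ => b)) (ow G κ Q j b) ⟨3 * ρ, by omega⟩ hW).mpr ?_⟩
        exact tri (r := 3 * ρ) (not_lt.mp hcon) hbc (by omega)

theorem co_succ (hRI : S_RI) {j n : ℕ} (hn : n ≤ Q) (IH0 : CO G κ Q j n)
    (IH : CO G κ Q j (n + 1)) : CO G κ Q (j + 1) n := by
  intro z z' π hfar hT
  have h66 : 6 * 6 ^ j ≤ 6 * 6 ^ (j + 1) := by
    have : 6 ^ j ≤ 6 ^ (j + 1) := Nat.pow_le_pow_right (by norm_num) (Nat.le_succ j)
    omega
  have h66' : ((6 * 6 ^ j : ℕ) : ℕ∞) ≤ ((6 * 6 ^ (j + 1) : ℕ) : ℕ∞) := by exact_mod_cast h66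
  have H : ∀ (z z' : Fin n → V),
      (∀ i k, π i ≠ π k → ((6 * 6 ^ (j + 1) : ℕ) : ℕ∞) < G.edist (z i) (z k) ∧
        ((6 * 6 ^ (j + 1) : ℕ) : ℕ∞) < G.edist (z' i) (z' k)) →
      (∀ i, T G κ Q (j + 1) n (Pc z π i) = T G κ Q (j + 1) n (Pc z' π i)) →
      ∀ b, ∃ b', ((dpat G (6 ^ (j + 1)) z b, ow G κ Q j b,
        T G κ Q j (n + 1) (ap z b)) : _ × _ × _) = (dpat G (6 ^ (j + 1)) z' b', ow G κ Q j b',
        T G κ Q j (n + 1) (ap z' b')) := by
    intro z z' h1 h2 b
    obtain ⟨b', h3, h4, h5⟩ := step hRI hn IH z z' π h1 h2 b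
    exact ⟨b', by rw [h3, h4, h5]⟩
  have hA := H z z' hfar hT
  have hB := H z' z (fun i k h => (hfar i k h).symm) (fun i => (hT i).symm)
  refine (T_succ_iff G κ Q _ _).mpr ⟨?_, ?_, ?_⟩
  · refine IH0 z z' π (fun i k h => ?_) (fun i => ?_)
    · exact ⟨lt_of_le_of_lt h66' (hfar i k h).1, lt_of_le_of_lt h66' (hfar i k h).2⟩
    · exact ((T_succ_iff G κ Q _ _).mp (hT i)).1
  · funext i θ q e
    have h := (T_succ_iff G κ Q _ _).mp (hT i)
    have h2 := congrFun (congrFun (congrFun (congrFun h.2.1 i) θ) q) e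
    unfold C2 at h2 ⊢
    rw [Pc_self, Pc_self] at h2
    exact h2
  · apply Set.ext
    intro p
    constructor
    · rintro ⟨b, rfl⟩
      exact hA b
    · rintro ⟨b, rfl⟩
      exact hB b

end

theorem co (hRI : S_RI) : S_CO := by
  intro V _ K G κ Q j
  have key : ∀ n, n + j ≤ Q + 1 → CO G κ Q j n := by
    induction j with
    | zero => exact fun n _ => co_zero G κ Q n
    | succ j ih =>
      intro n hn
      exact co_succ hRI (by omega) (ih n (by omega)) (ih (n + 1) (by omega))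
  intro n hn z z' π hfar hT
  exact key n hn z z' π hfar hT

end Pool.Agent.N721.ND
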